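import Mathlib
import Pool.Agent.Q102.DistTable

/-!
# A Cartesian product with a smaller strong geodetic number than a factor (MP_8400ad_co)

`sg(K_{2,11}) ≥ 11` whereas `sg(K_{2,11} □ C₅) ≤ 10`.

Let `u, v` be the vertices of the part of size two.  A vertex of the part of size `11` is an inner
vertex only of geodesics between `u` and `v`, so a strong geodetic set of `K_{2,11}` misses at most one
of these vertices, and if it misses one then it contains `u` and `v`.

In `K_{2,11} □ C₅` the set `S = {u, v} × C₅` is strong geodetic: between `(u,i)` and `(v,j)` one may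
follow the shortest arc from `i` to `j` in the layer of any middle vertex `m`.  For ten of the
eleven middle vertices we use a pair with `d(i,j) = 2` and one with `d(i,j) = 1` with complementary
arcs, and for the last one we use the five pairs with `i = j`.
-/

set_option autoImplicit false

open SimpleGraph Finset

namespace Pool.Agent.Results.MP_8400ad_co.BipartiteTimesPentagon

section Defs

variable {V : Type*}

/-- `S` is a strong geodetic set: one can choose for every unordered pair of distinct vertices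
`x, y` of `S` a shortest `x`-`y` path, with vertex set `P s(x,y)`, such that every vertex of the graph
lies on a chosen path. -/
def IsStrongGeodetic (G : SimpleGraph V) (S : Finset V) : Prop :=
  ∃ P : Sym2 V → Set V,
    (∀ x ∈ S, ∀ y ∈ S, x ≠ y →
      ∃ w : G.Walk x y, w.length = G.dist x y ∧ P s(x, y) = {z | z ∈ w.support}) ∧
    ∀ z, ∃ x ∈ S, ∃ y ∈ S, x ≠ y ∧ z ∈ P s(x, y)

/-- The strong geodetic number. -/
noncomputable def sg (G : SimpleGraph V) : ℕ :=
  sInf {n | ∃ S : Finset V, IsStrongGeodetic G S ∧ S.card = n}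

end Defs

section General

variable {V : Type*} {G : SimpleGraph V}

/-- A partial choice of geodesics extends to a full choice. -/
theorem exists_choice (hG : G.Connected) {I : Type*} (x y : I → V)
    (w : ∀ i, G.Walk (x i) (y i)) (hw : ∀ i, (w i).length = G.dist (x i) (y i))
    (hinj : ∀ i j, s(x i, y i) = s(x j, y j) → i = j) :
    ∃ P : Sym2 V → Set V,
      (∀ a b, ∃ p : G.Walk a b, p.length = G.dist a b ∧ P s(a, b) = {z | z ∈ p.support}) ∧
      ∀ i, P s(x i, y i) = {z | z ∈ (w i).support} := by
  classical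
  have hgeo : ∀ a b, ∃ p : G.Walk a b, p.length = G.dist a b := fun a b =>
    hG.exists_walk_length_eq_dist a b
  choose g hg using hgeo
  let P : Sym2 V → Set V := fun e =>
    if h : ∃ i, e = s(x i, y i) then {z | z ∈ (w h.choose).support}
    else {z | z ∈ (g (Quot.out e).1 (Quot.out e).2).support}
  have hP1 : ∀ i, P s(x i, y i) = {z | z ∈ (w i).support} := by
    intro i
    have h : ∃ j, s(x i, y i) = s(x j, y j) := ⟨i, rfl⟩
    have h1 : h.choose = i := (hinj _ _ h.choose_spec).symm
    simp only [P, dif_pos h]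
    rw [h1]
  refine ⟨P, ?_, hP1⟩
  intro a b
  by_cases h : ∃ i, s(a, b) = s(x i, y i)
  · obtain ⟨i, hi⟩ := h
    rw [hi, hP1 i]
    rcases Sym2.eq_iff.mp hi with ⟨rfl, rfl⟩ | ⟨rfl, rfl⟩
    · exact ⟨w i, hw i, rfl⟩
    · refine ⟨(w i).reverse, ?_, ?_⟩
      · rw [Walk.length_reverse, hw, dist_comm]
      · ext z
        simp
  · simp only [P, dif_neg h]
    have h2 : s((Quot.out s(a, b)).1, (Quot.out s(a, b)).2) = s(a, b) := Quot.out_eq s(a, b)
    generalize hc : (Quot.out s(a, b)).1 = c at *
    generalize hd : (Quot.out s(a, b)).2 = d at *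
    rcases Sym2.eq_iff.mp h2 with ⟨rfl, rfl⟩ | ⟨rfl, rfl⟩
    · exact ⟨g c d, hg c d, rfl⟩
    · refine ⟨(g c d).reverse, ?_, ?_⟩
      · rw [Walk.length_reverse, hg, dist_comm]
      · ext z
        simp

theorem isStrongGeodetic_univ [Fintype V] [Nontrivial V] (hG : G.Connected) :
    IsStrongGeodetic G (univ : Finset V) := by
  obtain ⟨P, hP, -⟩ := exists_choice hG (I := Empty) Empty.elim Empty.elim
    (fun i => i.elim) (fun i => i.elim) (fun i => i.elim)
  refine ⟨P, fun x _ y _ _ => hP x y, fun z => ?_⟩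
  obtain ⟨y, hy⟩ := exists_ne z
  obtain ⟨p, -, hp⟩ := hP z y
  refine ⟨z, mem_univ _, y, mem_univ _, hy.symm, ?_⟩
  rw [hp]
  exact p.start_mem_support

theorem dist_boxProd' {W : Type*} {H : SimpleGraph W} (hG : G.Connected) (hH : H.Connected)
    (x y : V × W) : (G □ H).dist x y = G.dist x.1 y.1 + H.dist x.2 y.2 := by
  rw [SimpleGraph.dist, SimpleGraph.dist, SimpleGraph.dist, edist_boxProd, ENat.toNat_add]
  · exact edist_ne_top_iff_reachable.mpr (hG.preconnected _ _)
  · exact edist_ne_top_iff_reachable.mpr (hH.preconnected _ _)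

theorem length_right {W : Type*} {H : SimpleGraph W} (a : V) {b c : W} (p : H.Walk b c) :
    (p.boxProdRight G a).length = p.length :=
  Walk.length_map (G.boxProdRight H a).toHom p

theorem support_right {W : Type*} {H : SimpleGraph W} (a : V) {b c : W} (p : H.Walk b c) {k : W}
    (hk : k ∈ p.support) : (a, k) ∈ (p.boxProdRight G a).support := by
  have h1 : (p.boxProdRight G a).support = p.support.map fun k => (a, k) :=
    Walk.support_map (G.boxProdRight H a).toHom p
  rw [h1]
  exact List.mem_map_of_mem hk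

end General

/-- `K_{2,11}`. -/
abbrev K : SimpleGraph (Fin 2 ⊕ Fin 11) := completeBipartiteGraph (Fin 2) (Fin 11)

theorem adj_lr (a : Fin 2) (m : Fin 11) : K.Adj (Sum.inl a) (Sum.inr m) := by
  simp [K]

theorem not_adj_ll (a b : Fin 2) : ¬ K.Adj (Sum.inl a) (Sum.inl b) := by
  simp [K]

theorem not_adj_rr (a b : Fin 11) : ¬ K.Adj (Sum.inr a) (Sum.inr b) := by
  simp [K]

theorem K_connected : K.Connected := by
  rw [connected_iff]
  refine ⟨?_, inferInstance⟩
  have h1 : ∀ x : Fin 2 ⊕ Fin 11, K.Reachable x (Sum.inr 0) := by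
    rintro (a | m)
    · exact (adj_lr a 0).reachable
    · exact (adj_lr 0 m).symm.reachable.trans (adj_lr 0 0).reachable
  exact fun x y => (h1 x).trans (h1 y).symm

theorem K_dist_le (x y : Fin 2 ⊕ Fin 11) : K.dist x y ≤ 2 := by
  rcases x with a | m <;> rcases y with b | n
  · exact dist_le (Walk.cons (adj_lr a 0) (Walk.cons (adj_lr b 0).symm Walk.nil))
  · exact (dist_le (Walk.cons (adj_lr a n) Walk.nil)).trans (by simp)
  · exact (dist_le (Walk.cons (adj_lr b m).symm Walk.nil)).trans (by simp)
  · exact dist_le (Walk.cons (adj_lr 0 m).symm (Walk.cons (adj_lr 0 n) Walk.nil))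

theorem K_dist : K.dist (Sum.inl 0) (Sum.inl 1) = 2 := by
  have h1 := K_dist_le (Sum.inl 0) (Sum.inl 1)
  have h2 : K.dist (Sum.inl 0) (Sum.inl 1) ≠ 0 := by
    rw [Ne, K_connected.dist_eq_zero_iff]
    simp
  have h3 : K.dist (Sum.inl 0) (Sum.inl 1) ≠ 1 := by
    rw [Ne, dist_eq_one_iff_adj]
    exact not_adj_ll 0 1
  omega

/-- A geodesic through a middle vertex that is not an end joins the two poles. -/
theorem geodesic_through {x y : Fin 2 ⊕ Fin 11} (w : K.Walk x y) (hw : w.length = K.dist x y)
    {m : Fin 11} (hm : Sum.inr m ∈ w.support) (hx : x ≠ Sum.inr m) (hy : y ≠ Sum.inr m) :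
    (∃ a b : Fin 2, x = Sum.inl a ∧ y = Sum.inl b) ∧ ∀ n, Sum.inr n ∈ w.support → n = m := by
  have hd := K_dist_le x y
  rw [← hw] at hd
  cases w with
  | nil =>
    rw [Walk.support_nil, List.mem_singleton] at hm
    exact absurd hm.symm hx
  | @cons _ z _ e1 p =>
    cases p with
    | nil =>
      simp only [Walk.support_cons, Walk.support_nil, List.mem_cons, List.not_mem_nil,
        or_false] at hm
      rcases hm with h | h
      · exact absurd h.symm hx
      · exact absurd h.symm hy
    | @cons _ z' _ e2 q =>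
      cases q with
      | cons e3 r =>
        simp only [Walk.length_cons] at hd
        omega
      | nil =>
        simp only [Walk.support_cons, Walk.support_nil, List.mem_cons, List.not_mem_nil,
          or_false] at hm
        have hz : z = Sum.inr m := by
          rcases hm with h | h | h
          · exact absurd h.symm hx
          · exact h.symm
          · exact absurd h.symm hy
        subst hz
        have hxa : ∃ a : Fin 2, x = Sum.inl a := by
          rcases x with a | n
          · exact ⟨a, rfl⟩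
          · exact absurd e1 (not_adj_rr _ _)
        have hyb : ∃ b : Fin 2, y = Sum.inl b := by
          rcases y with b | n
          · exact ⟨b, rfl⟩
          · exact absurd e2 (not_adj_rr _ _)
        obtain ⟨a, rfl⟩ := hxa
        obtain ⟨b, rfl⟩ := hyb
        refine ⟨⟨a, b, rfl, rfl⟩, ?_⟩
        intro n hn
        simp only [Walk.support_cons, Walk.support_nil, List.mem_cons, List.not_mem_nil,
          or_false, reduceCtorEq, false_or, Sum.inr.injEq] at hn
        exact hn

theorem fin2 : ∀ a : Fin 2, a = 0 ∨ a = 1 := by decide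

theorem fin2' : ∀ a b : Fin 2, a ≠ b → (a = 0 ∧ b = 1) ∨ (a = 1 ∧ b = 0) := by decide

instance : Nontrivial (Fin 2 ⊕ Fin 11) := ⟨Sum.inl 0, Sum.inl 1, by simp⟩

theorem eleven_le_sg : 11 ≤ sg K := by
  apply le_csInf
  · exact ⟨_, univ, isStrongGeodetic_univ K_connected, rfl⟩
  · rintro n ⟨S, ⟨P, hP, hcov⟩, rfl⟩
    -- middle vertices outside `S`
    have hout : ∀ m : Fin 11, Sum.inr m ∉ S →
        (Sum.inl 0 ∈ S ∧ Sum.inl 1 ∈ S) ∧ Sum.inr m ∈ P s(Sum.inl 0, Sum.inl 1) := by
      intro m hm
      obtain ⟨x, hx, y, hy, hxy, hmem⟩ := hcov (Sum.inr m)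
      obtain ⟨w, hw, hPw⟩ := hP x hx y hy hxy
      have hmem' := hmem
      rw [hPw] at hmem
      have hxm : x ≠ Sum.inr m := by
        rintro rfl
        exact hm hx
      have hym : y ≠ Sum.inr m := by
        rintro rfl
        exact hm hy
      obtain ⟨⟨a, b, rfl, rfl⟩, -⟩ := geodesic_through w hw hmem hxm hym
      have hab : a ≠ b := fun h => hxy (by rw [h])
      rcases fin2' a b hab with ⟨rfl, rfl⟩ | ⟨rfl, rfl⟩
      · exact ⟨⟨hx, hy⟩, hmem'⟩
      · exact ⟨⟨hy, hx⟩, by rwa [Sym2.eq_swap]⟩
    have huniq : ∀ m m' : Fin 11, Sum.inr m ∉ S → Sum.inr m' ∉ S → m = m' := by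
      intro m m' hm hm'
      obtain ⟨⟨h0, h1⟩, hm1⟩ := hout m hm
      obtain ⟨-, hm2⟩ := hout m' hm'
      obtain ⟨w, hw, hPw⟩ := hP _ h0 _ h1 (by simp)
      rw [hPw] at hm1 hm2
      exact (geodesic_through w hw hm2 (by simp) (by simp)).2 m hm1
    by_cases hall : ∀ m : Fin 11, Sum.inr m ∈ S
    · have hsub : (univ.image fun m : Fin 11 => (Sum.inr m : Fin 2 ⊕ Fin 11)) ⊆ S := by
        intro z hz
        obtain ⟨m, -, rfl⟩ := mem_image.mp hz
        exact hall m
      have h1 := card_le_card hsub
      rw [card_image_of_injective _ Sum.inr_injective, card_univ, Fintype.card_fin] at h1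
      exact h1
    · push Not at hall
      obtain ⟨m, hm⟩ := hall
      obtain ⟨⟨h0, h1⟩, -⟩ := hout m hm
      have hsub : (univ.image fun a : Fin 2 => (Sum.inl a : Fin 2 ⊕ Fin 11)) ∪
          ((univ.erase m).image fun m : Fin 11 => (Sum.inr m : Fin 2 ⊕ Fin 11)) ⊆ S := by
        intro z hz
        rcases mem_union.mp hz with hz | hz
        · obtain ⟨a, -, rfl⟩ := mem_image.mp hz
          rcases fin2 a with rfl | rfl
          · exact h0
          · exact h1
        · obtain ⟨n, hn, rfl⟩ := mem_image.mp hz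
          by_contra hcon
          exact (mem_erase.mp hn).1 (huniq n m hcon hm)
      have h2 := card_le_card hsub
      rw [card_union_of_disjoint, card_image_of_injective _ Sum.inl_injective,
        card_image_of_injective _ Sum.inr_injective, card_erase_of_mem (mem_univ _), card_univ,
        card_univ, Fintype.card_fin, Fintype.card_fin] at h2
      · omega
      · rw [Finset.disjoint_left]
        intro z hz hz'
        obtain ⟨a, -, rfl⟩ := mem_image.mp hz
        obtain ⟨b, -, hb⟩ := mem_image.mp hz'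
        exact absurd hb (by simp)

/-! ### The pentagon -/

/-- Distances in the pentagon. -/
def D5 (i j : Fin 5) : ℕ := min (j - i).val (i - j).val

theorem C_dist (i j : Fin 5) : (cycleGraph 5).dist i j = D5 i j :=
  Pool.Agent.Q102.DistTable.dist_eq (by decide) (by decide) (by decide) i j

theorem C_connected : (cycleGraph 5).Connected := cycleGraph_connected

/-- The vertices of the shortest arc from `i` to `j`. -/
def arc (i j : Fin 5) : Finset (Fin 5) := univ.filter fun k => D5 i k + D5 k j = D5 i j

theorem exists_arc (i j : Fin 5) : ∃ w : (cycleGraph 5).Walk i j,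
    w.length = (cycleGraph 5).dist i j ∧ ∀ k ∈ arc i j, k ∈ w.support := by
  have h1 : ∀ i : Fin 5, (cycleGraph 5).Adj i (i + 1) := by decide
  have h2 : ∀ i : Fin 5, (cycleGraph 5).Adj (i + 1) (i + 2) := by decide
  have h3 : ∀ i : Fin 5, (cycleGraph 5).Adj i (i + 4) := by decide
  have h4 : ∀ i : Fin 5, (cycleGraph 5).Adj (i + 4) (i + 3) := by decide
  have key : ∀ i j : Fin 5, j = i ∨ j = i + 1 ∨ j = i + 2 ∨ j = i + 3 ∨ j = i + 4 := by decide
  rcases key i j with rfl | rfl | rfl | rfl | rfl
  · refine ⟨Walk.nil, by simp, ?_⟩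
    simp only [Walk.support_nil, List.mem_singleton]
    revert j
    decide
  · refine ⟨Walk.cons (h1 i) Walk.nil, ?_, ?_⟩
    · rw [C_dist]
      simp only [Walk.length_cons, Walk.length_nil]
      revert i
      decide
    · simp only [Walk.support_cons, Walk.support_nil, List.mem_cons, List.not_mem_nil, or_false]
      revert i
      decide
  · refine ⟨Walk.cons (h1 i) (Walk.cons (h2 i) Walk.nil), ?_, ?_⟩
    · rw [C_dist]
      simp only [Walk.length_cons, Walk.length_nil]
      revert i
      decide
    · simp only [Walk.support_cons, Walk.support_nil, List.mem_cons, List.not_mem_nil, or_false]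
      revert i
      decide
  · refine ⟨Walk.cons (h3 i) (Walk.cons (h4 i) Walk.nil), ?_, ?_⟩
    · rw [C_dist]
      simp only [Walk.length_cons, Walk.length_nil]
      revert i
      decide
    · simp only [Walk.support_cons, Walk.support_nil, List.mem_cons, List.not_mem_nil, or_false]
      revert i
      decide
  · refine ⟨Walk.cons (h3 i) Walk.nil, ?_, ?_⟩
    · rw [C_dist]
      simp only [Walk.length_cons, Walk.length_nil]
      revert i
      decide
    · simp only [Walk.support_cons, Walk.support_nil, List.mem_cons, List.not_mem_nil, or_false]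
      revert i
      decide

/-- The middle vertex used for the pair `(u,i)`, `(v,j)`: middle vertices `0, …, 4` are used for the
pairs `(i,i+2)` and `(i+3,i+4)`, middle vertices `5, …, 9` for the reversed pairs and middle vertex
`10` for the pairs `(i,i)`. -/
def mid (i j : Fin 5) : Fin 11 :=
  if j = i then 10
  else if j = i + 2 then i.castLE (by norm_num)
  else if j = i + 1 then (i + 2).castLE (by norm_num)
  else if j = i + 3 then (j.castLE (by norm_num : 5 ≤ 11)) + 5
  else ((i + 1).castLE (by norm_num : 5 ≤ 11)) + 5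

theorem mid_cover : ∀ (m : Fin 11) (k : Fin 5), ∃ i j, mid i j = m ∧ k ∈ arc i j := by decide

/-- The geodesic from `(u,i)` to `(v,j)` through the layer of `mid i j`. -/
theorem exists_geo (i j : Fin 5) : ∃ w : (K □ cycleGraph 5).Walk (Sum.inl 0, i) (Sum.inl 1, j),
    w.length = (K □ cycleGraph 5).dist (Sum.inl 0, i) (Sum.inl 1, j) ∧
    ∀ k ∈ arc i j, (Sum.inr (mid i j), k) ∈ w.support := by
  obtain ⟨p, hp, hp'⟩ := exists_arc i j
  have e1 : (K □ cycleGraph 5).Adj (Sum.inl 0, i) (Sum.inr (mid i j), i) :=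
    boxProd_adj_left.mpr (adj_lr 0 _)
  have e2 : (K □ cycleGraph 5).Adj (Sum.inr (mid i j), j) (Sum.inl 1, j) :=
    boxProd_adj_left.mpr (adj_lr 1 _).symm
  refine ⟨Walk.cons e1 ((p.boxProdRight K (Sum.inr (mid i j))).append (Walk.cons e2 Walk.nil)),
    ?_, ?_⟩
  · rw [dist_boxProd' K_connected C_connected, K_dist, ← hp]
    rw [Walk.length_cons, Walk.length_append, length_right, Walk.length_cons, Walk.length_nil]
    ring
  · intro k hk
    rw [Walk.support_cons, List.mem_cons, Walk.mem_support_append_iff]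
    right
    left
    exact support_right _ p (hp' k hk)

theorem sg_le_ten : sg (K □ cycleGraph 5) ≤ 10 := by
  classical
  apply Nat.sInf_le
  choose w hw hw' using exists_geo
  have hconn : (K □ cycleGraph 5).Connected := K_connected.boxProd C_connected
  obtain ⟨P, hP, hP'⟩ := exists_choice hconn (I := Fin 5 × Fin 5)
    (fun p => (Sum.inl 0, p.1)) (fun p => (Sum.inl 1, p.2)) (fun p => w p.1 p.2)
    (fun p => hw p.1 p.2) (by
      rintro ⟨i, j⟩ ⟨i', j'⟩ h
      rcases Sym2.eq_iff.mp h with ⟨h1, h2⟩ | ⟨h1, h2⟩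
      · rw [Prod.mk.injEq] at h1 h2
        exact Prod.ext h1.2 h2.2
      · rw [Prod.mk.injEq] at h1
        exact absurd h1.1 (by simp))
  refine ⟨univ.image fun p : Fin 2 × Fin 5 => ((Sum.inl p.1 : Fin 2 ⊕ Fin 11), p.2),
    ⟨P, fun x _ y _ _ => hP x y, ?_⟩, ?_⟩
  · rintro ⟨a | m, k⟩
    · obtain ⟨b, hb⟩ : ∃ b : Fin 2, a ≠ b := by
        revert a
        decide
      refine ⟨(Sum.inl a, k), by simp, (Sum.inl b, k), by simp, by simp [hb], ?_⟩
      obtain ⟨p, -, hp⟩ := hP (Sum.inl a, k) (Sum.inl b, k)
      rw [hp]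
      exact p.start_mem_support
    · obtain ⟨i, j, hm, hk⟩ := mid_cover m k
      refine ⟨(Sum.inl 0, i), by simp, (Sum.inl 1, j), by simp, by simp, ?_⟩
      rw [hP' (i, j), ← hm]
      exact hw' i j k hk
  · rw [card_image_of_injective, card_univ, Fintype.card_prod, Fintype.card_fin, Fintype.card_fin]
    rintro ⟨a, b⟩ ⟨c, d⟩ h
    simpa using h

/-- There are finite connected graphs `G` and `H` with `sg(G □ H) < sg(G)`. -/
theorem result : ∃ (G : SimpleGraph (Fin 2 ⊕ Fin 11)) (H : SimpleGraph (Fin 5)),
    G.Connected ∧ H.Connected ∧ sg (G □ H) < sg G :=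
  ⟨K, cycleGraph 5, K_connected, C_connected, lt_of_le_of_lt sg_le_ten
    (lt_of_lt_of_le (by norm_num) eleven_le_sg)⟩

end Pool.Agent.Results.MP_8400ad_co.BipartiteTimesPentagon
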